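import Mathlib

set_option autoImplicit false

namespace Pool.Agent.Results.MP_d6b6f7_nt.EquivalentForms

open NumberField QuadraticAlgebra

/-- `K` is a real quadratic field: a number field of degree two with a real embedding. -/
def IsRealQuadratic (K : Type) [Field K] [NumberField K] : Prop :=
  Module.finrank ℚ K = 2 ∧ Nonempty (K →+* ℝ)

/-- Totally positive integers: all real embeddings are positive. -/
def TotPos {K : Type} [Field K] [NumberField K] (γ : 𝓞 K) : Prop :=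
  ∀ φ : K →+* ℝ, 0 < φ (γ : K)

/-- Indecomposable integers: totally positive, and not the sum of two totally positive
integers. -/
def Indec {K : Type} [Field K] [NumberField K] (α : 𝓞 K) : Prop :=
  TotPos α ∧ ¬ ∃ β γ : 𝓞 K, TotPos β ∧ TotPos γ ∧ α = β + γ

/-- Admissible pairs of indecomposable integers; `σ` is the conjugation. -/
structure Admissible {K : Type} [Field K] [NumberField K] (σ : 𝓞 K ≃+* 𝓞 K) (α β : 𝓞 K) :
    Prop where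
  indec_left : Indec α
  indec_right : Indec β
  not_assoc : ¬ ∃ ε : 𝓞 K, IsUnit ε ∧ α = ε * β
  not_assoc_conj : ¬ ∃ ε : 𝓞 K, IsUnit ε ∧ σ α = ε * β
  h1 : ∀ η : 𝓞 K, β ≠ α * η ^ 2
  h2 : ∀ η : 𝓞 K, β ≠ σ α * η ^ 2
  h3 : ∀ η : 𝓞 K, α ≠ β * η ^ 2
  h4 : ∀ η : 𝓞 K, α ≠ σ β * η ^ 2

/-- The binary form `Q_{α,m}(x, y) = α x² + 2 m x y + α' y²`. -/
def Q {K : Type} [Field K] [NumberField K] (σ : 𝓞 K ≃+* 𝓞 K) (α : 𝓞 K) (m : ℤ)
    (x y : 𝓞 K) : 𝓞 K :=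
  α * x ^ 2 + 2 * (m : 𝓞 K) * x * y + σ α * y ^ 2

/-- Equivalence of binary forms over the ring of integers. -/
def Equivalent {K : Type} [Field K] [NumberField K] (F G : 𝓞 K → 𝓞 K → 𝓞 K) : Prop :=
  ∃ U : GL (Fin 2) (𝓞 K), ∀ x y : 𝓞 K,
    G x y = F (U.1 0 0 * x + U.1 0 1 * y) (U.1 1 0 * x + U.1 1 1 * y)

/-! ### The field `ℚ(√41)` -/

instance fact41 : Fact (∀ r : ℚ, r ^ 2 ≠ 41 + 0 * r) := ⟨by
  intro r hr
  have h1 : r ^ 2 = (41 : ℚ) := by rw [hr]; ring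
  have h2 : IsSquare (41 : ℚ) := ⟨r, by rw [← h1]; ring⟩
  have h3 : IsSquare (41 : ℕ) := by
    rw [← Rat.isSquare_natCast_iff]; exact_mod_cast h2
  revert h3
  decide +kernel⟩

/-- the field -/
abbrev F : Type := QuadraticAlgebra ℚ 41 0

instance : CharZero F := charZero_of_injective_algebraMap (algebraMap ℚ F).injective

instance : NumberField F := { to_charZero := inferInstance, to_finiteDimensional := inferInstance }

lemma integ (X Y N : ℤ) (h : X ^ 2 - 41 * Y ^ 2 = 4 * N) :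
    IsIntegral ℤ (⟨X / 2, Y / 2⟩ : F) := by
  refine ⟨Polynomial.X ^ 2 - Polynomial.C X * Polynomial.X + Polynomial.C N, by monicity!, ?_⟩
  have hq : (X : ℚ) ^ 2 - 41 * Y ^ 2 = 4 * N := by exact_mod_cast h
  simp only [Polynomial.eval₂_add, Polynomial.eval₂_sub, Polynomial.eval₂_mul,
    Polynomial.eval₂_pow, Polynomial.eval₂_X, Polynomial.eval₂_C]
  ext
  · simp [pow_two]
    linarith
  · simp [pow_two]
    ring

/-- the integer `(X + Y √41) / 2` -/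
def mk (X Y N : ℤ) (h : X ^ 2 - 41 * Y ^ 2 = 4 * N) : 𝓞 F := ⟨⟨X / 2, Y / 2⟩, integ X Y N h⟩


lemma am (q : ℚ) : algebraMap ℚ F q = ⟨q, 0⟩ := rfl

lemma int_of_integral {q : ℚ} (h : IsIntegral ℤ (algebraMap ℚ F q)) : ∃ k : ℤ, q = k := by
  have h1 : IsIntegral ℤ q := (isIntegral_algebraMap_iff (algebraMap ℚ F).injective).1 h
  obtain ⟨k, hk⟩ := IsIntegrallyClosed.isIntegral_iff.1 h1
  exact ⟨k, by rw [← hk]; simp⟩

/-- conjugation of the field -/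
noncomputable def sg : F ≃+* F := starRingAut

lemma sg_apply (x : F) : sg x = ⟨x.re, -x.im⟩ := by
  change star x = _
  ext <;> simp

/-- conjugation of the ring of integers -/
noncomputable def sig : 𝓞 F ≃+* 𝓞 F := RingOfIntegers.mapRingEquiv sg

lemma sig_apply (x : 𝓞 F) : ((sig x : 𝓞 F) : F) = sg x := rfl

lemma desc (x : 𝓞 F) : ∃ X Y N : ℤ, ∃ h : X ^ 2 - 41 * Y ^ 2 = 4 * N, x = mk X Y N h := by
  have hx : IsIntegral ℤ (x : F) := x.2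
  have hs : IsIntegral ℤ (sg (x : F)) := (sig x).2
  have e1 : (x : F) + sg x = algebraMap ℚ F (2 * (x : F).re) := by
    rw [sg_apply, am]
    ext
    · simp only [re_add]; ring
    · simp only [im_add]; ring
  have e2 : (x : F) * sg x = algebraMap ℚ F ((x : F).re ^ 2 - 41 * (x : F).im ^ 2) := by
    rw [sg_apply, am]
    ext
    · simp only [re_mul]; ring
    · simp only [im_mul]; ring
  obtain ⟨X, hX⟩ := int_of_integral (by rw [← e1]; exact hx.add hs)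
  obtain ⟨N, hN⟩ := int_of_integral (by rw [← e2]; exact hx.mul hs)
  obtain ⟨v, hv⟩ : ∃ v : ℚ, v = 2 * (x : F).im := ⟨_, rfl⟩
  have hv1 : 41 * v ^ 2 = ((X ^ 2 - 4 * N : ℤ) : ℚ) := by
    push_cast
    rw [← hX, ← hN, hv]; ring
  -- 41 v is an integer
  obtain ⟨w, hw⟩ : ∃ w : ℤ, 41 * v = w := by
    have h1 : IsIntegral ℤ (41 * v) := by
      refine ⟨Polynomial.X ^ 2 - Polynomial.C (41 * (X ^ 2 - 4 * N)), by monicity!, ?_⟩
      simp only [Polynomial.eval₂_sub, Polynomial.eval₂_pow, Polynomial.eval₂_X,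
        Polynomial.eval₂_C]
      have : (algebraMap ℤ ℚ) (41 * (X ^ 2 - 4 * N)) = 41 * ((X ^ 2 - 4 * N : ℤ) : ℚ) := by
        simp
      rw [this, ← hv1]; ring
    obtain ⟨k, hk⟩ := IsIntegrallyClosed.isIntegral_iff.1 h1
    exact ⟨k, by rw [← hk]; simp⟩
  have hw2 : w ^ 2 = 41 * (X ^ 2 - 4 * N) := by
    have : (w : ℚ) ^ 2 = 41 * ((X ^ 2 - 4 * N : ℤ) : ℚ) := by
      rw [← hw, ← hv1]; ring
    exact_mod_cast this
  have h41 : (41 : ℤ) ∣ w := by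
    have hp : Prime (41 : ℤ) := by
      rw [Int.prime_iff_natAbs_prime]; norm_num
    exact hp.dvd_of_dvd_pow (⟨_, hw2⟩ : (41 : ℤ) ∣ w ^ 2)
  obtain ⟨Y, rfl⟩ := h41
  have hvY : v = Y := by
    push_cast at hw
    linarith
  have hXY : X ^ 2 - 41 * Y ^ 2 = 4 * N := by
    have : 41 * (Y : ℚ) ^ 2 = ((X ^ 2 - 4 * N : ℤ) : ℚ) := by rw [← hv1, hvY]
    have : 41 * Y ^ 2 = X ^ 2 - 4 * N := by exact_mod_cast this
    linarith
  refine ⟨X, Y, N, hXY, ?_⟩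
  apply RingOfIntegers.ext
  change (x : F) = ⟨X / 2, Y / 2⟩
  ext
  · simp only; rw [← hX]; ring
  · simp only; rw [← hvY, hv]; ring

lemma mk_coe (X Y N : ℤ) (h : X ^ 2 - 41 * Y ^ 2 = 4 * N) : ((mk X Y N h : 𝓞 F) : F) =
    ⟨X / 2, Y / 2⟩ := rfl

/-- a real embedding -/
noncomputable def emb (e : ℝ) (he : e ^ 2 = 41) : F →+* ℝ :=
  (QuadraticAlgebra.lift (R := ℚ) (A := ℝ) (a := 41) (b := 0)
    ⟨e, by rw [← pow_two, he]; simp [Algebra.smul_def]⟩).toRingHom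

lemma emb_apply (e : ℝ) (he : e ^ 2 = 41) (x : F) : emb e he x = x.re + x.im * e := by
  simp [emb, Algebra.smul_def]

lemma hom_apply (φ : F →+* ℝ) (x : F) : ∃ e : ℝ, e ^ 2 = 41 ∧ φ x = x.re + x.im * e := by
  refine ⟨φ ⟨0, 1⟩, ?_, ?_⟩
  · rw [← map_pow]
    have : (⟨0, 1⟩ : F) ^ 2 = ((41 : ℕ) : F) := by
      rw [pow_two]; ext <;> simp
    rw [this, map_natCast]; norm_num
  · have h : x = algebraMap ℚ F x.re + algebraMap ℚ F x.im * ⟨0, 1⟩ := by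
      rw [am, am]
      ext <;> simp
    have h2 : ∀ q : ℚ, φ (algebraMap ℚ F q) = (q : ℝ) := fun q => by
      rw [← RingHom.comp_apply]; exact eq_ratCast _ q
    conv_lhs => rw [h]
    rw [map_add, map_mul, h2, h2]

lemma totPos_mk {X Y N : ℤ} (h : X ^ 2 - 41 * Y ^ 2 = 4 * N) :
    TotPos (mk X Y N h) ↔ 0 < X ∧ 0 < N := by
  have hR : (X : ℝ) ^ 2 - 41 * Y ^ 2 = 4 * N := by exact_mod_cast h
  constructor
  · intro hp
    have hs : (√41 : ℝ) ^ 2 = 41 := Real.sq_sqrt (by norm_num)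
    have h1 := hp (emb (√41) hs)
    have h2 := hp (emb (-√41) (by rw [neg_sq]; exact hs))
    rw [emb_apply, mk_coe] at h1 h2
    simp only at h1 h2
    push_cast at h1 h2
    have h3 : (0 : ℝ) < X := by linarith
    have h4 : (0 : ℝ) < N := by
      have := mul_pos h1 h2
      nlinarith
    exact ⟨by exact_mod_cast h3, by exact_mod_cast h4⟩
  · rintro ⟨hX, hN⟩ φ
    obtain ⟨e, he, h1⟩ := hom_apply φ (mk X Y N h : 𝓞 F)
    rw [h1, mk_coe]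
    simp only
    push_cast
    have hX' : (0 : ℝ) < X := by exact_mod_cast hX
    have hN' : (0 : ℝ) < N := by exact_mod_cast hN
    have h2 : (Y * e) ^ 2 < (X : ℝ) ^ 2 := by
      rw [mul_pow, he]; linarith
    have h3 := abs_lt_of_sq_lt_sq' h2 hX'.le
    linarith [h3.1]

/-! ### norms -/

lemma sig_mk (X Y N : ℤ) (h : X ^ 2 - 41 * Y ^ 2 = 4 * N) :
    sig (mk X Y N h) = mk X (-Y) N (by rw [neg_sq]; exact h) := by
  apply RingOfIntegers.ext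
  change sg _ = _
  rw [sg_apply]
  change (⟨X / 2, -(Y / 2)⟩ : F) = ⟨X / 2, ((-Y : ℤ) : ℚ) / 2⟩
  ext
  · rfl
  · simp only; push_cast; ring

lemma norm_mk (X Y N : ℤ) (h : X ^ 2 - 41 * Y ^ 2 = 4 * N) :
    mk X Y N h * sig (mk X Y N h) = (N : 𝓞 F) := by
  rw [sig_mk]
  apply RingOfIntegers.ext
  change (⟨X / 2, Y / 2⟩ : F) * ⟨X / 2, ((-Y : ℤ) : ℚ) / 2⟩ = ((N : 𝓞 F) : F)
  have hq : (X : ℚ) ^ 2 - 41 * Y ^ 2 = 4 * N := by exact_mod_cast h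
  have hc : ((N : 𝓞 F) : F) = (N : F) := map_intCast (algebraMap (𝓞 F) F) N
  rw [hc]
  ext
  · simp only [re_mul, re_intCast]
    push_cast
    linarith
  · simp only [im_mul, im_intCast]
    push_cast
    ring

lemma norm_int (x : 𝓞 F) : ∃ N : ℤ, x * sig x = (N : 𝓞 F) := by
  obtain ⟨X, Y, N, h, rfl⟩ := desc x
  exact ⟨N, norm_mk X Y N h⟩

lemma sig_sig (x : 𝓞 F) : sig (sig x) = x := by
  obtain ⟨X, Y, N, h, rfl⟩ := desc x
  rw [sig_mk, sig_mk]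
  apply RingOfIntegers.ext
  rw [mk_coe, mk_coe]
  ext
  · rfl
  · simp only; push_cast; ring

/-! ### the two indecomposable elements -/

/-- `13 + 2 √41` -/
def al : 𝓞 F := mk 26 4 5 (by norm_num)

/-- `(173 + 27 √41) / 2` -/
def be : 𝓞 F := mk 173 27 10 (by norm_num)

lemma mk_add (X₁ Y₁ N₁ : ℤ) (h₁ : X₁ ^ 2 - 41 * Y₁ ^ 2 = 4 * N₁) (X₂ Y₂ N₂ : ℤ)
    (h₂ : X₂ ^ 2 - 41 * Y₂ ^ 2 = 4 * N₂) (X Y N : ℤ) (h : X ^ 2 - 41 * Y ^ 2 = 4 * N)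
    (hs : mk X Y N h = mk X₁ Y₁ N₁ h₁ + mk X₂ Y₂ N₂ h₂) : X = X₁ + X₂ ∧ Y = Y₁ + Y₂ := by
  have h1 : ((mk X Y N h : 𝓞 F) : F) = (mk X₁ Y₁ N₁ h₁ : 𝓞 F) + (mk X₂ Y₂ N₂ h₂ : 𝓞 F) := by
    rw [hs]; rfl
  rw [mk_coe, mk_coe, mk_coe] at h1
  have h2 := congrArg QuadraticAlgebra.re h1
  have h3 := congrArg QuadraticAlgebra.im h1
  simp only [re_add, im_add] at h2 h3
  constructor
  · have : (X : ℚ) = X₁ + X₂ := by linarith
    exact_mod_cast this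
  · have : (Y : ℚ) = Y₁ + Y₂ := by linarith
    exact_mod_cast this

lemma indec_of (X Y N : ℤ) (h : X ^ 2 - 41 * Y ^ 2 = 4 * N) (hX : 0 < X) (hN : 0 < N)
    (hc : ∀ X₁ Y₁ N₁ X₂ Y₂ N₂ : ℤ, X₁ ^ 2 - 41 * Y₁ ^ 2 = 4 * N₁ →
      X₂ ^ 2 - 41 * Y₂ ^ 2 = 4 * N₂ → 0 < X₁ → 0 < N₁ → 0 < X₂ → 0 < N₂ →
      X = X₁ + X₂ → Y = Y₁ + Y₂ → False) : Indec (mk X Y N h) := by
  refine ⟨(totPos_mk h).2 ⟨hX, hN⟩, ?_⟩
  rintro ⟨β, γ, hβ, hγ, hs⟩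
  obtain ⟨X₁, Y₁, N₁, h₁, rfl⟩ := desc β
  obtain ⟨X₂, Y₂, N₂, h₂, rfl⟩ := desc γ
  rw [totPos_mk] at hβ hγ
  obtain ⟨hX', hY'⟩ := mk_add _ _ _ _ _ _ _ _ _ _ _ _ hs
  exact hc X₁ Y₁ N₁ X₂ Y₂ N₂ h₁ h₂ hβ.1 hβ.2 hγ.1 hγ.2 hX' hY'

lemma bnd (A B X Y N : ℤ) (hA : 26 ≤ A) (hB : 0 ≤ B) (hAB : A ^ 2 ≤ 41 * B ^ 2 + 41)
    (h : X ^ 2 - 41 * Y ^ 2 = 4 * N) (hX : 0 < X) (hXA : X ≤ A - 1) (hN : 0 < N) : Y < B := by
  by_contra hcon
  push Not at hcon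
  have u1 : X ^ 2 ≤ (A - 1) ^ 2 := pow_le_pow_left₀ hX.le hXA 2
  have u2 : B ^ 2 ≤ Y ^ 2 := pow_le_pow_left₀ hB hcon 2
  have u3 : (A - 1) ^ 2 = A ^ 2 - 2 * A + 1 := by ring
  linarith

lemma check (A B : ℕ) (hA : 26 ≤ A)
    (hd : ∀ x ∈ List.range A, ∀ y ∈ List.range B,
      ¬ (4 + 41 * y ^ 2 ≤ x ^ 2 ∧ 4 + 41 * (B - y) ^ 2 ≤ (A - x) ^ 2 ∧
        (x ^ 2 + 3 * y ^ 2) % 4 = 0 ∧ ((A - x) ^ 2 + 3 * (B - y) ^ 2) % 4 = 0))
    (hAB' : (A : ℤ) ^ 2 ≤ 41 * (B : ℤ) ^ 2 + 41)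
    (X₁ Y₁ N₁ X₂ Y₂ N₂ : ℤ) (h₁ : X₁ ^ 2 - 41 * Y₁ ^ 2 = 4 * N₁)
    (h₂ : X₂ ^ 2 - 41 * Y₂ ^ 2 = 4 * N₂) (hX₁ : 0 < X₁) (hN₁ : 0 < N₁) (hX₂ : 0 < X₂)
    (hN₂ : 0 < N₂) (hX : (A : ℤ) = X₁ + X₂) (hY : (B : ℤ) = Y₁ + Y₂) : False := by
  have hA' : (26 : ℤ) ≤ A := by exact_mod_cast hA
  have hB' : (0 : ℤ) ≤ B := by positivity
  have hX₁A : X₁ ≤ A - 1 := by omega
  have hX₂A : X₂ ≤ A - 1 := by omega
  have b1 : Y₁ < B := bnd A B X₁ Y₁ N₁ hA' hB' hAB' h₁ hX₁ hX₁A hN₁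
  have b2 : Y₂ < B := bnd A B X₂ Y₂ N₂ hA' hB' hAB' h₂ hX₂ hX₂A hN₂
  have b3 : 0 < Y₁ := by omega
  obtain ⟨x, rfl⟩ := Int.eq_ofNat_of_zero_le hX₁.le
  obtain ⟨y, rfl⟩ := Int.eq_ofNat_of_zero_le b3.le
  obtain ⟨x', rfl⟩ := Int.eq_ofNat_of_zero_le hX₂.le
  obtain ⟨y', rfl⟩ := Int.eq_ofNat_of_zero_le (show 0 ≤ Y₂ by omega)
  have hx : x < A := by omega
  have hy : y < B := by omega
  have e1 : A - x = x' := by omega
  have e2 : B - y = y' := by omega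
  refine hd x (List.mem_range.2 hx) y (List.mem_range.2 hy) ?_
  rw [e1, e2]
  refine ⟨?_, ?_, ?_, ?_⟩
  · zify; linarith
  · zify; linarith
  · zify; omega
  · zify; omega

lemma indec_al : Indec al := by
  refine indec_of _ _ _ _ (by norm_num) (by norm_num) ?_
  intro X₁ Y₁ N₁ X₂ Y₂ N₂ h₁ h₂ h3 h4 h5 h6 h7 h8
  exact check 26 4 (by norm_num) (by decide +kernel) (by norm_num) X₁ Y₁ N₁ X₂ Y₂ N₂ h₁ h₂ h3 h4
    h5 h6 h7 h8

lemma indec_be : Indec be := by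
  refine indec_of _ _ _ _ (by norm_num) (by norm_num) ?_
  intro X₁ Y₁ N₁ X₂ Y₂ N₂ h₁ h₂ h3 h4 h5 h6 h7 h8
  exact check 173 27 (by norm_num) (by decide +kernel) (by norm_num) X₁ Y₁ N₁ X₂ Y₂ N₂ h₁ h₂ h3 h4
    h5 h6 h7 h8

lemma norm_al : al * sig al = ((5 : ℤ) : 𝓞 F) := norm_mk _ _ _ _

lemma norm_be : be * sig be = ((10 : ℤ) : 𝓞 F) := norm_mk _ _ _ _

lemma norm_ne_of (x y η : 𝓞 F) (a b : ℤ) (hx : x * sig x = (a : 𝓞 F))
    (hy : y * sig y = (b : 𝓞 F)) (hxy : x = η * y) : ∃ k : ℤ, a = k * b := by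
  obtain ⟨k, hk⟩ := norm_int η
  refine ⟨k, ?_⟩
  have : (a : 𝓞 F) = ((k * b : ℤ) : 𝓞 F) := by
    push_cast
    rw [← hx, ← hy, ← hk, hxy, map_mul]; ring
  exact_mod_cast this

lemma norm_ne_of_sq (x y η : 𝓞 F) (a b : ℤ) (hx : x * sig x = (a : 𝓞 F))
    (hy : y * sig y = (b : 𝓞 F)) (hxy : x = y * η ^ 2) : ∃ k : ℤ, a = b * k ^ 2 := by
  obtain ⟨k, hk⟩ := norm_int η
  refine ⟨k, ?_⟩
  have : (a : 𝓞 F) = ((b * k ^ 2 : ℤ) : 𝓞 F) := by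
    push_cast
    rw [← hx, ← hy, ← hk, hxy, map_mul, map_pow]; ring
  exact_mod_cast this

lemma norm_sig (x : 𝓞 F) (a : ℤ) (hx : x * sig x = (a : 𝓞 F)) :
    sig x * sig (sig x) = (a : 𝓞 F) := by
  rw [sig_sig, mul_comm]; exact hx

lemma sq2 (k : ℤ) (h : 10 = 5 * k ^ 2) : False := by
  have h1 : k ^ 2 = 2 := by omega
  have h2 : k ≤ 1 := by nlinarith
  have h3 : -1 ≤ k := by nlinarith
  interval_cases k <;> omega

lemma admissible : Admissible sig al be where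
  indec_left := indec_al
  indec_right := indec_be
  not_assoc := by
    rintro ⟨ε, -, h⟩
    obtain ⟨k, hk⟩ := norm_ne_of _ _ _ _ _ norm_al norm_be h
    omega
  not_assoc_conj := by
    rintro ⟨ε, -, h⟩
    obtain ⟨k, hk⟩ := norm_ne_of _ _ _ _ _ (norm_sig _ _ norm_al) norm_be h
    omega
  h1 := by
    intro η h
    obtain ⟨k, hk⟩ := norm_ne_of_sq _ _ _ _ _ norm_be norm_al h
    exact sq2 k hk
  h2 := by
    intro η h
    obtain ⟨k, hk⟩ := norm_ne_of_sq _ _ _ _ _ norm_be (norm_sig _ _ norm_al) h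
    exact sq2 k hk
  h3 := by
    intro η h
    obtain ⟨k, hk⟩ := norm_ne_of_sq _ _ _ _ _ norm_al norm_be h
    omega
  h4 := by
    intro η h
    obtain ⟨k, hk⟩ := norm_ne_of_sq _ _ _ _ _ norm_al (norm_sig _ _ norm_be) h
    omega

/-! ### the equivalence -/

/-- `√41` -/
def w : 𝓞 F := mk 0 2 (-41) (by norm_num)

/-- `-(5 + √41) / 2` -/
def u₁ : 𝓞 F := mk (-5) (-1) (-4) (by norm_num)

/-- `(19 - 3 √41) / 2` -/
def u₂ : 𝓞 F := mk 19 (-3) (-2) (by norm_num)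

/-- `32 + 5 √41` -/
def u₃ : 𝓞 F := mk 64 10 (-1) (by norm_num)

lemma w_coe : (w : F) = ⟨0, 1⟩ := by
  change (⟨((0 : ℤ) : ℚ) / 2, ((2 : ℤ) : ℚ) / 2⟩ : F) = ⟨0, 1⟩
  norm_num

lemma u₁_coe : (u₁ : F) = ⟨-5 / 2, -1 / 2⟩ := by
  change (⟨((-5 : ℤ) : ℚ) / 2, ((-1 : ℤ) : ℚ) / 2⟩ : F) = _
  norm_num

lemma u₂_coe : (u₂ : F) = ⟨19 / 2, -3 / 2⟩ := by
  change (⟨((19 : ℤ) : ℚ) / 2, ((-3 : ℤ) : ℚ) / 2⟩ : F) = _
  norm_num

lemma u₃_coe : (u₃ : F) = ⟨32, 5⟩ := by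
  change (⟨((64 : ℤ) : ℚ) / 2, ((10 : ℤ) : ℚ) / 2⟩ : F) = _
  norm_num

lemma al_coe : (al : F) = ⟨13, 2⟩ := by
  change (⟨((26 : ℤ) : ℚ) / 2, ((4 : ℤ) : ℚ) / 2⟩ : F) = _
  norm_num

lemma be_coe : (be : F) = ⟨173 / 2, 27 / 2⟩ := by
  change (⟨((173 : ℤ) : ℚ) / 2, ((27 : ℤ) : ℚ) / 2⟩ : F) = _
  norm_num

lemma sig_al_coe : ((sig al : 𝓞 F) : F) = ⟨13, -2⟩ := by
  rw [sig_apply, sg_apply, al_coe]

lemma sig_be_coe : ((sig be : 𝓞 F) : F) = ⟨173 / 2, -(27 / 2)⟩ := by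
  rw [sig_apply, sg_apply, be_coe]

lemma det_eq : u₁ * 1 - u₂ * u₃ = 1 := by
  apply RingOfIntegers.ext
  change (u₁ : F) * 1 - (u₂ : F) * (u₃ : F) = 1
  rw [u₁_coe, u₂_coe, u₃_coe]
  ext <;> norm_num

lemma eqA : al * u₁ ^ 2 + 4 * u₁ * u₃ + sig al * u₃ ^ 2 = be := by
  apply RingOfIntegers.ext
  change (al : F) * (u₁ : F) ^ 2 + 4 * (u₁ : F) * (u₃ : F) + ((sig al : 𝓞 F) : F) * (u₃ : F) ^ 2
    = (be : F)
  rw [u₁_coe, u₃_coe, al_coe, sig_al_coe, be_coe]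
  ext <;> norm_num [pow_two]

lemma eqB : al * u₂ ^ 2 + 4 * u₂ + sig al = sig be := by
  apply RingOfIntegers.ext
  change (al : F) * (u₂ : F) ^ 2 + 4 * (u₂ : F) + ((sig al : 𝓞 F) : F)
    = ((sig be : 𝓞 F) : F)
  rw [u₂_coe, al_coe, sig_al_coe, sig_be_coe]
  ext <;> norm_num [pow_two]

lemma eqC : al * u₁ * u₂ + 2 * (u₁ + u₂ * u₃) + sig al * u₃ = 3 := by
  apply RingOfIntegers.ext
  change (al : F) * (u₁ : F) * (u₂ : F) + 2 * ((u₁ : F) + (u₂ : F) * (u₃ : F)) +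
    ((sig al : 𝓞 F) : F) * (u₃ : F) = 3
  rw [u₁_coe, u₂_coe, u₃_coe, al_coe, sig_al_coe]
  ext <;> norm_num

/-- the transformation -/
noncomputable def U : GL (Fin 2) (𝓞 F) :=
  Matrix.GeneralLinearGroup.mk'' !![u₁, u₂; u₃, 1] (by
    rw [Matrix.det_fin_two_of, det_eq]; exact isUnit_one)

lemma equiv_forms : Equivalent (Q sig al 2) (Q sig be 3) := by
  refine ⟨U, fun x y => ?_⟩
  have e00 : U.1 0 0 = u₁ := rfl
  have e01 : U.1 0 1 = u₂ := rfl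
  have e10 : U.1 1 0 = u₃ := rfl
  have e11 : U.1 1 1 = 1 := rfl
  rw [e00, e01, e10, e11]
  have hA := eqA
  have hB := eqB
  have hC := eqC
  unfold Q
  push_cast
  linear_combination (-x ^ 2) * hA - y ^ 2 * hB - 2 * x * y * hC

lemma sg_ne : sg ≠ RingEquiv.refl F := by
  intro h
  have h1 : sg ⟨0, 1⟩ = ⟨0, 1⟩ := by rw [h]; rfl
  rw [sg_apply] at h1
  have h2 := congrArg QuadraticAlgebra.im h1
  norm_num at h2

/-- There are a real quadratic field `K` with nontrivial automorphism `σ`, an admissible pair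
`(α, β)` of indecomposable integers of `K` and nonzero integers `m`, `n` with `m² < N(α)`,
`n² < N(β)`, such that `Q_{α,m}` and `Q_{β,n}` are equivalent over the ring of integers. -/
theorem result : ∃ (K : Type) (_ : Field K) (_ : NumberField K), IsRealQuadratic K ∧
    ∃ σ : K ≃+* K, σ ≠ RingEquiv.refl K ∧
    ∃ α β : 𝓞 K, Admissible (RingOfIntegers.mapRingEquiv σ) α β ∧
    ∃ m n : ℤ, m ≠ 0 ∧ n ≠ 0 ∧ ∃ a b : ℤ,
      α * RingOfIntegers.mapRingEquiv σ α = (a : 𝓞 K) ∧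
      β * RingOfIntegers.mapRingEquiv σ β = (b : 𝓞 K) ∧ m ^ 2 < a ∧ n ^ 2 < b ∧
      Equivalent (Q (RingOfIntegers.mapRingEquiv σ) α m)
        (Q (RingOfIntegers.mapRingEquiv σ) β n) := by
  refine ⟨F, inferInstance, inferInstance,
    ⟨QuadraticAlgebra.finrank_eq_two 41 0,
      ⟨emb (√41) (Real.sq_sqrt (by norm_num))⟩⟩, sg, sg_ne, al, be, admissible, 2, 3,
    by norm_num, by norm_num, 5, 10, norm_al, norm_be, by norm_num, by norm_num, equiv_forms⟩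

end Pool.Agent.Results.MP_d6b6f7_nt.EquivalentForms
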